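import Pool.Agent.Q258.EqStar.Num

set_option autoImplicit false

namespace Pool.Agent.Results.MP_0c0609_co.FiniteIffFour

open Pool.Agent.Q258.EqStar

/-- For n ≥ 2, there are only finitely many multisets {m_1, ..., m_n} of positive integers for which
the disjoint union of the stars K_{1,m_1}, ..., K_{1,m_n} is equitably 2-choosable if and only if
n ≤ 4. -/
theorem result : ∀ n : ℕ, 2 ≤ n →
    ({s : Multiset ℕ | ∃ m : Fin n → ℕ, (∀ i, 1 ≤ m i) ∧ s = Finset.univ.val.map m ∧
      EquitablyChoosable 2 (starUnion m)}.Finite ↔ n ≤ 4) := by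
  intro n hn
  constructor
  · intro hfin
    by_contra hcon
    obtain ⟨r, rfl⟩ : ∃ r, n = 5 + r := ⟨n - 5, by omega⟩
    refine Set.infinite_of_injective_forall_mem (f := fun k : ℕ =>
      (Finset.univ.val.map (fun i : Fin (5 + r) => aa i.val * k + 1) : Multiset ℕ)) ?_ ?_ hfin
    · intro k k' hk
      have h1 := congrArg Multiset.sum hk
      have h2 : ∀ k : ℕ, (Finset.univ.val.map (fun i : Fin (5 + r) => aa i.val * k + 1) :
          Multiset ℕ).sum = (∑ i : Fin (5 + r), aa i.val) * k + (5 + r) := by
        intro k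
        change ∑ i : Fin (5 + r), (aa i.val * k + 1) = _
        rw [Finset.sum_add_distrib, Finset.sum_mul]
        simp
      simp only [h2] at h1
      have h3 : 0 < ∑ i : Fin (5 + r), aa i.val := by
        apply Finset.sum_pos'
        · intro i _; exact Nat.zero_le _
        · exact ⟨⟨0, by omega⟩, Finset.mem_univ _, by show 0 < aa 0; decide⟩
      exact Nat.eq_of_mul_eq_mul_left h3 (by omega)
    · intro k
      exact ⟨fun i => aa i.val * k + 1, fun i => Nat.le_add_left 1 _, rfl, part_inf r k⟩
  · intro hn4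
    have hb : ∀ m : Fin n → ℕ, (∀ i, 1 ≤ m i) → EquitablyChoosable 2 (starUnion m) →
        ∀ i, m i ≤ 100 := by
      have : n = 2 ∨ n = 3 ∨ n = 4 := by omega
      rcases this with rfl | rfl | rfl
      · exact bound2
      · exact bound3
      · exact bound4
    have hfin : (Set.Iic (fun _ : Fin n => 100) : Set (Fin n → ℕ)).Finite := Set.finite_Iic _
    refine (hfin.image (fun m => (Finset.univ.val.map m : Multiset ℕ))).subset ?_
    rintro s ⟨m, h1, rfl, h2⟩
    exact ⟨m, fun i => hb m h1 h2 i, rfl⟩

end Pool.Agent.Results.MP_0c0609_co.FiniteIffFour
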